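import Pool.Agent.Work.MP_db9399_exp.Interface
import Pool.Agent.Work.MP_db9399_qr.POOL

/-!
# MP_db9399, THEOREM EXP: block POOLX (helper94)

Greedy colouring of the dropped inside edges, in pairs, for an arbitrary finite set of cells.
-/

set_option autoImplicit false

namespace Pool.Agent.Work.MP_db9399_exp.helper94

open Finset Classical
open Pool.Agent.Work.MP_db9399_all (nb)
open Pool.Agent.Work.MP_db9399_qr (cov PEC sd)
open Pool.Agent.Work.MP_db9399_qr.POOLAux

universe u

theorem stmt_POOLX : Pool.Agent.Work.MP_db9399_exp.Stmt_POOLX.{u} := by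
  intro V _ T _ R side cell D m C Pe ty hside hD hm hDm
  rcases isEmpty_or_nonempty V with hV | hV
  · refine ⟨fun v => hV.elim v, ⟨fun v => hV.elim v, fun v => hV.elim v⟩, fun v => hV.elim v, ?_⟩
    have h1 : ∀ s b, cov R (fun v => hV.elim v : V → V → C) b ∩ sd side s = ∅ :=
      fun s b => Finset.eq_empty_of_isEmpty _
    simp only [h1, Finset.card_empty, Nat.cast_zero, sub_self, abs_zero, Finset.sum_const_zero]
    exact abs_nonneg _
  obtain ⟨v₀⟩ := hV
  set τ₀ : T := cell v₀ with hτ₀
  have hPe : Pe.Nonempty := by
    have h1 := hm (τ₀, τ₀, τ₀, τ₀)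
    have h2 : 0 < (Pe.filter (fun b => ty b = (τ₀, τ₀, τ₀, τ₀))).card := by omega
    obtain ⟨b, hb⟩ := Finset.card_pos.mp h2
    exact ⟨b, (Finset.mem_filter.mp hb).1⟩
  have : Nonempty C := ⟨hPe.choose⟩
  set E : Bool → Finset (Sym2 V) := fun s => (Rs R side s).edgeFinset with hE
  have memE : ∀ s v w, s(v, w) ∈ E s ↔ R.Adj v w ∧ side v = s ∧ side w = s := by
    intro s v w
    simp only [hE, SimpleGraph.mem_edgeFinset, SimpleGraph.mem_edgeSet]
    exact Iff.rfl
  choose g hg1 hg2 using fun s => index (E s)
  set idx : Sym2 V → ℕ := fun e => if e ∈ E true then g true e else g false e with hidx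
  have notboth : ∀ e, e ∈ E true → e ∉ E false := by
    intro e
    induction e using Sym2.inductionOn with
    | hf v w =>
      intro h1 h2
      rw [memE] at h1 h2
      rw [h1.2.1] at h2
      exact absurd h2.2.1 (by decide)
  have idx_eq : ∀ s, ∀ e ∈ E s, idx e = g s e := by
    intro s e he
    cases s
    · have : e ∉ E true := fun h => notboth e h he
      simp only [hidx, this, if_false]
    · simp only [hidx, he, if_true]
  have idx_inj : ∀ s, ∀ e ∈ E s, ∀ e' ∈ E s, idx e = idx e' → e = e' := by
    intro s e he e' he' h
    rw [idx_eq s e he, idx_eq s e' he'] at h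
    exact hg1 s he he' h
  have idx_img : ∀ s, (E s).image idx = range (E s).card := by
    intro s
    rw [← hg2 s]
    exact Finset.image_congr (fun e he => idx_eq s e he)
  have two : ∀ s j, ∃ (P : Finset V) (x y : T), P.card ≤ 2 ∧
      (∀ e ∈ E s, idx e = j → ∀ v ∈ e, v ∈ P) ∧ ∀ v ∈ P, cell v = x ∨ cell v = y := by
    intro s j
    by_cases h : ∃ e ∈ E s, idx e = j
    · obtain ⟨e, he, hj⟩ := h
      induction e using Sym2.inductionOn with
      | hf a b =>
        refine ⟨{a, b}, cell a, cell b, Finset.card_le_two, ?_, ?_⟩
        · intro e' he' hj' v hv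
          have := idx_inj s e' he' _ he (hj'.trans hj.symm)
          rw [this, Sym2.mem_iff] at hv
          rcases hv with rfl | rfl <;> simp
        · intro v hv
          rw [Finset.mem_insert, Finset.mem_singleton] at hv
          rcases hv with rfl | rfl <;> simp
    · exact ⟨∅, τ₀, τ₀, by simp, fun e he hj => absurd ⟨e, he, hj⟩ h, by simp⟩
  choose P x y hP2 hPe' hPc using two
  set Q : ℕ → ℕ → Prop := fun j j' => ∃ s, ∃ e ∈ E s, ∃ e' ∈ E s, idx e = j ∧ idx e' = j' ∧
    ∃ v, v ∈ e ∧ v ∈ e' with hQ
  have Qs : ∀ a b, Q a b → Q b a := by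
    rintro a b ⟨s, e, he, e', he', h1, h2, v, hv, hv'⟩
    exact ⟨s, e', he', e, he, h2, h1, v, hv', hv⟩
  set L : ℕ → Finset C := fun j => Pe.filter (fun b => ty b = (x true j, y true j, x false j,
    y false j)) with hL
  have hLc : ∀ j, 4 * D < (L j).card := by
    intro j
    have h1 := hm (x true j, y true j, x false j, y false j)
    simp only [hL]
    omega
  have hQc : ∀ N j, ((range N).filter (fun j' => Q j j')).card ≤ 4 * D := by
    intro N j
    have hsub : (range N).filter (fun j' => Q j j') ⊆ (P true j ∪ P false j).biUnion
        (fun v => (nb R v).image (fun w => idx s(v, w))) := by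
      intro j' hj'
      obtain ⟨-, s, e, he, e', he', h1, h2, v, hv, hv'⟩ := Finset.mem_filter.mp hj'
      rw [Finset.mem_biUnion]
      refine ⟨v, ?_, ?_⟩
      · have := hPe' s j e he h1 v hv
        rw [Finset.mem_union]
        cases s
        · exact Or.inr this
        · exact Or.inl this
      · obtain ⟨w, rfl⟩ := hv'
        rw [Finset.mem_image]
        refine ⟨w, ?_, h2⟩
        rw [memE] at he'
        simp only [nb, Finset.mem_filter, Finset.mem_univ, true_and]
        exact he'.1
    calc ((range N).filter (fun j' => Q j j')).card ≤ _ := Finset.card_le_card hsub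
      _ ≤ ∑ v ∈ P true j ∪ P false j, ((nb R v).image (fun w => idx s(v, w))).card :=
          Finset.card_biUnion_le
      _ ≤ ∑ v ∈ P true j ∪ P false j, D :=
          Finset.sum_le_sum (fun v _ => Finset.card_image_le.trans (hD v))
      _ = (P true j ∪ P false j).card * D := by rw [Finset.sum_const, smul_eq_mul]
      _ ≤ 4 * D := by
          apply Nat.mul_le_mul_right
          have := Finset.card_union_le (P true j) (P false j)
          have := hP2 true j
          have := hP2 false j
          omega
  set N := max (E true).card (E false).card with hN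
  obtain ⟨f, hf1, hf2⟩ := greedy Q L (range N)
    (fun j _ => by
      refine lt_of_le_of_lt (le_of_eq ?_) (lt_of_le_of_lt (hQc N j) (hLc j))
      congr) Qs
  have idx_lt : ∀ s, ∀ e ∈ E s, idx e ∈ range N := by
    intro s e he
    have h1 : idx e ∈ (E s).image idx := Finset.mem_image_of_mem _ he
    rw [idx_img s, Finset.mem_range] at h1
    rw [Finset.mem_range]
    cases s
    · exact lt_of_lt_of_le h1 (le_max_right _ _)
    · exact lt_of_lt_of_le h1 (le_max_left _ _)
  have memE' : ∀ v w, R.Adj v w → s(v, w) ∈ E (side v) := by
    intro v w h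
    rw [memE]
    exact ⟨h, rfl, (hside v w h).symm⟩
  have hinj : ∀ v w w', R.Adj v w → R.Adj v w' → f (idx s(v, w)) = f (idx s(v, w')) → w = w' := by
    intro v w w' h h' hff
    by_contra hne
    have he := memE' v w h
    have he' := memE' v w' h'
    have hne' : idx s(v, w) ≠ idx s(v, w') := by
      intro heq
      have := idx_inj _ _ he _ he' heq
      rw [Sym2.congr_right] at this
      exact hne this
    exact hf2 _ (idx_lt _ _ he) _ (idx_lt _ _ he') hne'
      ⟨side v, _, he, _, he', rfl, rfl, v, Sym2.mem_mk_left _ _, Sym2.mem_mk_left _ _⟩ hff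
  have hpec : PEC R (fun v w => f (idx s(v, w))) := by
    refine ⟨fun v w => congrArg (fun e => f (idx e)) Sym2.eq_swap, ?_⟩
    intro v w hw w' hw' h
    have hw1 : R.Adj v w := by
      have : w ∈ nb R v := hw
      simpa [nb] using this
    have hw2 : R.Adj v w' := by
      have : w' ∈ nb R v := hw'
      simpa [nb] using this
    exact hinj v w w' hw1 hw2 h
  refine ⟨fun v w => f (idx s(v, w)), hpec, ?_, ?_⟩
  · intro v w h
    have he := memE' v w h
    have hv := hPe' _ _ _ he rfl v (Sym2.mem_mk_left _ _)
    have hl := hf1 _ (idx_lt _ _ he)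
    simp only [hL, Finset.mem_filter] at hl
    obtain ⟨hl1, hl2⟩ := hl
    refine ⟨hl1, ?_, ?_⟩
    · intro hsv
      simp only [hl2]
      rw [hsv] at hv
      exact hPc _ _ v hv
    · intro hsv
      simp only [hl2]
      rw [hsv] at hv
      exact hPc _ _ v hv
  · -- counting
    have hcov : ∀ s b, (cov R (fun v w => f (idx s(v, w))) b ∩ sd side s).card =
        2 * ((range (E s).card).filter (fun j => f j = b)).card := by
      intro s b
      have h1 := sum_nb (Rb R side f idx s b)
      have h2 : ∀ v, (nb (Rb R side f idx s b) v).card =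
          if v ∈ cov R (fun v w => f (idx s(v, w))) b ∩ sd side s then 1 else 0 := by
        intro v
        by_cases hv : v ∈ cov R (fun v w => f (idx s(v, w))) b ∩ sd side s
        · rw [if_pos hv]
          rw [Finset.mem_inter] at hv
          obtain ⟨hv1, hv2⟩ := hv
          simp only [cov, sd, Finset.mem_filter, Finset.mem_univ, true_and] at hv1 hv2
          obtain ⟨w, hw1, hw2⟩ := hv1
          rw [Finset.card_eq_one]
          refine ⟨w, ?_⟩
          ext w'
          simp only [nb, Finset.mem_filter, Finset.mem_univ, true_and, Finset.mem_singleton]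
          constructor
          · intro h
            have h' : (R.Adj v w' ∧ side v = s ∧ side w' = s) ∧ f (idx s(v, w')) = b := h
            exact hinj v w' w h'.1.1 hw1 (h'.2.trans hw2.symm)
          · rintro rfl
            show (R.Adj v w' ∧ side v = s ∧ side w' = s) ∧ f (idx s(v, w')) = b
            exact ⟨⟨hw1, hv2, (hside v w' hw1).symm.trans hv2⟩, hw2⟩
        · rw [if_neg hv, Finset.card_eq_zero, Finset.eq_empty_iff_forall_notMem]
          intro w hw
          apply hv
          simp only [nb, Finset.mem_filter, Finset.mem_univ, true_and] at hw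
          have h' : (R.Adj v w ∧ side v = s ∧ side w = s) ∧ f (idx s(v, w)) = b := hw
          rw [Finset.mem_inter]
          simp only [cov, sd, Finset.mem_filter, Finset.mem_univ, true_and]
          exact ⟨⟨w, h'.1.1, h'.2⟩, h'.1.2.1⟩
      rw [Finset.sum_congr rfl (fun v _ => h2 v), Finset.sum_ite_mem, Finset.univ_inter,
        Finset.sum_const, smul_eq_mul, mul_one] at h1
      rw [h1]
      congr 1
      have h3 : (Rb R side f idx s b).edgeFinset = (E s).filter (fun e => f (idx e) = b) := by
        ext e
        induction e using Sym2.inductionOn with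
        | hf v w =>
          rw [Finset.mem_filter, memE, SimpleGraph.mem_edgeFinset, SimpleGraph.mem_edgeSet]
          exact Iff.rfl
      have h4 : ((range (E s).card).filter (fun j => f j = b)) =
          ((E s).filter (fun e => f (idx e) = b)).image idx := by
        rw [← idx_img s, Finset.filter_image]
      rw [h3, h4, Finset.card_image_of_injOn]
      intro e he e' he' h
      exact idx_inj s e (Finset.mem_filter.mp he).1 e' (Finset.mem_filter.mp he').1 h
    have hdeg : ∀ s, (∑ v ∈ sd side s, ((nb R v).card : ℤ)) = 2 * ((E s).card : ℤ) := by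
      intro s
      have h1 := sum_nb (Rs R side s)
      have h2 : ∀ v, (nb (Rs R side s) v).card = if v ∈ sd side s then (nb R v).card else 0 := by
        intro v
        by_cases hv : v ∈ sd side s
        · rw [if_pos hv]
          simp only [sd, Finset.mem_filter, Finset.mem_univ, true_and] at hv
          congr 1
          ext w
          simp only [nb, Finset.mem_filter, Finset.mem_univ, true_and]
          constructor
          · intro h
            have h' : R.Adj v w ∧ side v = s ∧ side w = s := h
            exact h'.1
          · intro h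
            show R.Adj v w ∧ side v = s ∧ side w = s
            exact ⟨h, hv, (hside v w h).symm.trans hv⟩
        · rw [if_neg hv, Finset.card_eq_zero, Finset.eq_empty_iff_forall_notMem]
          intro w hw
          apply hv
          simp only [nb, Finset.mem_filter, Finset.mem_univ, true_and] at hw
          have h' : R.Adj v w ∧ side v = s ∧ side w = s := hw
          simp only [sd, Finset.mem_filter, Finset.mem_univ, true_and]
          exact h'.2.1
      rw [Finset.sum_congr rfl (fun v _ => h2 v), Finset.sum_ite_mem, Finset.univ_inter] at h1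
      exact_mod_cast h1
    rw [hdeg true, hdeg false]
    have h5 : ∀ b ∈ Pe, |((cov R (fun v w => f (idx s(v, w))) b ∩ sd side true).card : ℤ) -
        ((cov R (fun v w => f (idx s(v, w))) b ∩ sd side false).card : ℤ)| =
        |(2 * ((range (E true).card).filter (fun j => f j = b)).card : ℤ) -
        2 * ((range (E false).card).filter (fun j => f j = b)).card| := by
      intro b _
      rw [hcov true b, hcov false b]
      push_cast
      rfl
    rw [Finset.sum_congr rfl h5]
    apply count_abs
    intro j hj
    have := hf1 j (Finset.mem_range.mpr hj)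
    simp only [hL, Finset.mem_filter] at this
    exact this.1

end Pool.Agent.Work.MP_db9399_exp.helper94
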